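import Pool.Agent.R904.Voi.Main

/-!
# Voisin's conjecture for the surfaces dominated by quotients of products of curves by
# elementary abelian 2-groups

Let `X` and `Y` be curves on which the group `G = (ℤ/2)^r` acts, and let `2 γ(φ)` and `2 γ'(φ)` be
the dimensions of the parts of `H^1(X)` and `H^1(Y)` belonging to the character `φ` of `G`. Let `S`
be a smooth projective surface which is dominated by `(X × Y) / G` (diagonal action), for example
the minimal resolution of `(X × Y) / G`.

**Theorem.** If `n > ∑_φ γ(φ) γ'(φ)` then for all zero-cycles `a_1, …, a_n` in the Albanese kernel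
of `S` the alternating sum `∑_σ sgn(σ) a_σ(1) × ⋯ × a_σ(n)` is zero in `CH^(2n)(S^n)_ℚ`.

If `S` is birational to `(X × Y) / G` then `H^0(S, Ω^2) = (H^0(X, Ω^1) ⊗ H^0(Y, Ω^1))^G` and since
the characters of `G` are real, `γ(φ)` is the dimension of `H^0(X, Ω^1)_φ`; so
`p_g(S) = ∑_φ γ(φ) γ'(φ)` and the theorem is the conjecture of Voisin for `S`. The case `G = 0` is
the case of the product of two curves of arbitrary genus.

## Proof

Let `p` be the projector onto the part `h^1(X)_φ` of the motive of `X`. By the theorem of Kimura
the symmetric power `Sym^(2 γ + 2)` of this motive is zero. The composition of its projector with a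
product of `γ + 1` copies of the class `p` on `X × X` shows that the sum over all perfect matchings
of `2 γ + 2` points `x_i` of the products of the classes `p(x_i, x_j)` is zero (`haf`). Consider
such a sum as a correspondence between `γ + 1` and `γ + 1` points: on zero-cycles the matchings which
connect two of the first `γ + 1` points act as zero for reasons of dimension, and so the
symmetrization of a zero-cycle over any `γ + 1` of its components in `h^1(X)_φ` is zero (`rel`; for
the product of zero-cycles of degree zero on a curve of genus `g` this is the theorem of Bloch that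
products of `g + 1` of them are zero in the Jacobian variety). By the second fundamental theorem of
invariant theory every combination of permutations (twisted by the sign) which acts as zero on the
tensor powers of a space of dimension `γ` is in the ideal generated by the symmetrizations over
`γ + 1` letters; this is applied to the alternating sum over the diagonal symmetric group of
`X^n × Y^n`, which acts as the antisymmetrization on the `n`-th tensor power of the tensor product
of spaces of dimensions `γ` and `γ'`.
-/

set_option autoImplicit false

open CategoryTheory AlgebraicGeometry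

universe u v

namespace Pool.Agent.Results.MP_83b46e_ag.QuotientsOfProducts

open Pool.Agent.H914 Pool.Agent.H914.VarClass Pool.Agent.H914.VarClass.Obj Pool.Agent.W492.BB
  Pool.Agent.TH133 Pool.Agent.Y152.AS Pool.Agent.R904.Voi

/-- **Voisin's conjecture for surfaces dominated by `(X × Y) / (ℤ/2)^r`.** For `W = S^n` and the
projections `s i` the sum is `∑_σ sgn(σ) α_σ(1) × ⋯ × α_σ(n)`. -/
theorem result {k : Type u} [Field k] {𝒱 : VarClass k} (C : TheoryData.{u, v, 0} 𝒱 ℚ)
    [IsChowProj C] {r : ℕ} (X Y S : 𝒱.Obj) (a : Two r → (X ⟶ X)) (a' : Two r → (Y ⟶ Y))
    (γ γ' : Two r → ℕ) (hX : IsCurveWithGenera C X a γ) (hY : IsCurveWithGenera C Y a' γ')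
    (hS : IsDominatedByQuotient C a a' S) (n : ℕ) (hn : ∑ φ, γ φ * γ' φ < n)
    (α : Fin n → C.A S) (hα : ∀ i, InAlbKer C (α i)) (W : 𝒱.Obj) (s : Fin n → (W ⟶ S)) :
    ∑ σ : Equiv.Perm (Fin n), (Equiv.Perm.sign σ : ℤ) •
      (List.ofFn fun i => C.up (s i) (α (σ i))).prod = 0 := by
  have h := main hX hY hS hn α hα s
  rw [← Matrix.det_transpose, Matrix.det_apply] at h
  refine Eq.trans (Finset.sum_congr rfl fun σ _ => ?_) h
  rw [List.prod_ofFn]
  rfl

end Pool.Agent.Results.MP_83b46e_ag.QuotientsOfProducts
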