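import Pool.Agent.R673.VO.Main

/-!
# Voisin's conjecture for surfaces whose zero-cycles come from pieces

Let `S` be a smooth projective surface. Suppose that the Albanese kernel of `S` is spanned by
(images under correspondences of)
* zero-cycles in the Albanese kernels of surfaces `R i`,
* zero-cycles of tensor products `M j ⊗ M' j`, and
* zero-cycles of the parts of sign `ε j` of the squares `M'' j ⊗ M'' j`,

where `M j`, `M' j`, `M'' j` are self-dual summands of the motives `h^1` of curves, of the ranks
`2 c j`, `2 c' j`, `2 d j`.

**Theorem.** If the assertion of Voisin holds for `R i` and all `n > g i`, then it holds for `S`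
(with rational coefficients) and all
`n > ∑ g i + ∑ c j * c' j + ∑_{ε j = 1} (d j choose 2) + ∑_{ε j = -1} (d j + 1 choose 2)`.

The numbers are the geometric genera of the pieces: the holomorphic one-forms of a self-dual summand
of rank `2 c` are a space of dimension `c`, and the holomorphic two-forms on `Z × Z` coming from
`M ⊗ M` which are invariant (anti-invariant) under the exchange are the exterior square (the
symmetric square) of the space of one-forms. Therefore this is the conjecture of Voisin for `S` if
the pieces are summands of the motive of `S`. Examples:
* `S` birational to `(X × Y) / G`, `X` and `Y` curves, `G` a finite group all irreducible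
  representations of which are defined over `ℚ`: if `e` is the primitive idempotent belonging to a
  vector of the representation `ρ`, the pieces are `e h^1(X) ⊗ e h^1(Y)`, one for every `ρ`;
* `S` birational to the symmetric square of a curve or to a mixed quotient `(X × X) / G`;
* surfaces `S` with an action of `(ℤ/2)^r` such that `S / (ℤ/2)^r` is rational: the pieces are the
  quotients of `S` by the kernels of the characters. With the K3 surfaces for which Voisin proved
  her conjecture (double planes branched along two cubics) one gets for example the complete
  intersections of four diagonal quadrics in `ℙ^6` (`p_g = 7`; seven quotients are double planes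
  branched along six lines, the others are rational) and the bidouble planes branched along three
  cubics (`p_g = 3`).

## Proof

By the theorem of Kimura `Sym^(2 c + 1) M = 0`; composition with copies of the class of the
projector, and the vanishing for reasons of dimension of the terms in which two of the points are
joined, show that the symmetrization of a zero-cycle over any `c + 1` of its components in `M` is
zero, also if both components of one factor are among them (`R904.Voi.relG`). By the second
fundamental theorem of invariant theory every combination of permutations of the `2 n` positions
which (twisted by the sign) acts as zero on the tensor power of a space of dimension `c` is in the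
ideal generated by these symmetrizations. This is applied to the alternating sum over the diagonal
symmetric group, multiplied by the (anti)symmetrizations over the `n` exchanges: it acts as zero
because a determinant with more columns than there are basis vectors of the exterior (symmetric)
square vanishes.
-/

set_option autoImplicit false

open CategoryTheory AlgebraicGeometry

universe u v

namespace Pool.Agent.Results.MP_83b46e_ag.SumsOfPieces

open Pool.Agent.H914 Pool.Agent.H914.VarClass Pool.Agent.H914.VarClass.Obj Pool.Agent.W492.BB
  Pool.Agent.TH133 Pool.Agent.Y152.AS Pool.Agent.R673.VO

/-- **Voisin's conjecture for surfaces whose zero-cycles come from pieces.** -/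
theorem result {k : Type u} [Field k] {𝒱 : VarClass k} (C : TheoryData.{u, v, 0} 𝒱 ℚ)
    [IsChowProj C] {ι₁ ι₂ ι₃ : Type} [Fintype ι₁] [Fintype ι₂] [Fintype ι₃] (S : 𝒱.Obj)
    (R : ι₁ → 𝒱.Obj) (X Y : ι₂ → 𝒱.Obj) (p : ∀ j, C.A ((X j).prod (X j)))
    (q : ∀ j, C.A ((Y j).prod (Y j))) (Z : ι₃ → 𝒱.Obj) (m : ∀ j, C.A ((Z j).prod (Z j)))
    (ε : ι₃ → ℤˣ) (hS : IsSpanned C S R p q m ε) (g : ι₁ → ℕ) (c c' : ι₂ → ℕ) (d : ι₃ → ℕ)
    (hR : ∀ i, VoisinAbove C (R i) (g i)) (hp : ∀ j, IsHalfRank C (p j) (c j))
    (hq : ∀ j, IsHalfRank C (q j) (c' j)) (hm : ∀ j, IsHalfRank C (m j) (d j)) :
    VoisinAbove C S (∑ i, g i + ∑ j, c j * c' j + ∑ j, squareRank (ε j) (d j)) :=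
  main hS hR hp hq hm

end Pool.Agent.Results.MP_83b46e_ag.SumsOfPieces
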